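import Pool.Agent.U208.SI.Stm

/-!
Package GM of project SI (helper208, MP_3a192b_co): a positive proportion of the Gaussian weight
of the cube is far from the origin.
-/

set_option autoImplicit false

namespace Pool.Agent.U208.SI

open MeasureTheory Set
open scoped ENNReal

namespace GMx

theorem lintegral_fin_prod {n : ℕ} (μ : Fin n → Measure ℝ)
    [∀ i, SigmaFinite (μ i)] (f : Fin n → ℝ → ℝ≥0∞) (hf : ∀ i, Measurable (f i)) :
    ∫⁻ x : Fin n → ℝ, ∏ i, f i (x i) ∂(Measure.pi μ) = ∏ i, ∫⁻ x, f i x ∂(μ i) := by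
  induction n with
  | zero => simp
  | succ n n_ih =>
      calc
        _ = ∫⁻ x : ℝ × (Fin n → ℝ),
            f 0 x.1 * ∏ i : Fin n, f (Fin.succ i) (x.2 i)
            ∂((μ 0).prod (Measure.pi (fun i ↦ μ i.succ))) := by
          rw [← ((measurePreserving_piFinSuccAbove μ 0).symm).lintegral_comp_emb
            (MeasurableEquiv.measurableEmbedding _)]
          simp_rw [MeasurableEquiv.piFinSuccAbove_symm_apply, Fin.insertNthEquiv,
            Fin.prod_univ_succ, Fin.insertNth_zero, Equiv.coe_fn_mk, Fin.cons_succ,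
            Fin.zero_succAbove, cast_eq, Fin.cons_zero]
        _ = (∫⁻ x, f 0 x ∂μ 0)
            * ∏ i : Fin n, ∫⁻ (x : ℝ), f (Fin.succ i) x ∂(μ i.succ) := by
          rw [← n_ih (fun i => μ i.succ) (fun i => f i.succ) (fun i => hf _)]
          exact lintegral_prod_mul (hf 0).aemeasurable (Finset.measurable_prod _ (fun i _ =>
            (hf _).comp (measurable_pi_apply i))).aemeasurable
        _ = ∏ i, ∫⁻ x, f i x ∂(μ i) := by rw [Fin.prod_univ_succ]

/-- The one-dimensional density. -/
noncomputable def f (t : ℝ) : ℝ≥0∞ :=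
  (Icc (-1 : ℝ) 1).indicator (fun t => ENNReal.ofReal (Real.exp (-(t ^ 2 / 2)))) t

theorem f_meas : Measurable f := by
  unfold f
  exact Measurable.indicator (by fun_prop) measurableSet_Icc

theorem box_meas (D : ℕ) : MeasurableSet (box D) := by
  have : box D = ⋂ i, {x : Fin D → ℝ | |x i| ≤ 1} := by
    ext x
    simp [box]
  rw [this]
  exact MeasurableSet.iInter fun i =>
    measurableSet_le ((measurable_pi_apply i).abs) measurable_const

theorem mu_eq (D : ℕ) :
    mu D = (volume : Measure (Fin D → ℝ)).withDensity (fun x => ∏ i, f (x i)) := by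
  unfold mu
  rw [← withDensity_indicator (box_meas D)]
  congr 1
  funext x
  by_cases hx : x ∈ box D
  · rw [indicator_of_mem hx]
    have h1 : ∀ i, f (x i) = ENNReal.ofReal (Real.exp (-((x i) ^ 2 / 2))) := by
      intro i
      unfold f
      rw [indicator_of_mem]
      exact abs_le.1 (hx i)
    simp_rw [h1]
    rw [← ENNReal.ofReal_prod_of_nonneg (fun i _ => (Real.exp_pos _).le), ← Real.exp_sum]
    congr 2
    unfold sq
    rw [Finset.sum_neg_distrib, Finset.sum_div]
  · rw [indicator_of_notMem hx]
    have : ∃ i, ¬ |x i| ≤ 1 := by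
      by_contra h
      push Not at h
      exact hx h
    obtain ⟨i, hi⟩ := this
    symm
    apply Finset.prod_eq_zero (Finset.mem_univ i)
    unfold f
    rw [indicator_of_notMem]
    intro h
    exact hi (abs_le.2 h)

theorem mu_univ (D : ℕ) : mu D univ = (∫⁻ t, f t) ^ D := by
  rw [mu_eq, withDensity_apply _ MeasurableSet.univ, Measure.restrict_univ, volume_pi,
    lintegral_fin_prod (fun _ => volume) (fun _ => f) (fun _ => f_meas)]
  simp

theorem mu_sq (D : ℕ) (j : Fin D) : ∫⁻ x, ENNReal.ofReal (x j ^ 2) ∂(mu D) =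
    (∫⁻ t, ENNReal.ofReal (t ^ 2) * f t) * (∫⁻ t, f t) ^ (D - 1) := by
  have hm : Measurable (fun x : Fin D → ℝ => ∏ i, f (x i)) :=
    Finset.measurable_prod _ fun i _ => f_meas.comp (measurable_pi_apply i)
  have hm2 : Measurable (fun x : Fin D → ℝ => ENNReal.ofReal (x j ^ 2)) := by fun_prop
  rw [mu_eq, lintegral_withDensity_eq_lintegral_mul _ hm hm2]
  set g : Fin D → ℝ → ℝ≥0∞ := fun i => if i = j then fun t => ENNReal.ofReal (t ^ 2) * f t else f
    with hg
  have hgm : ∀ i, Measurable (g i) := by
    intro i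
    rw [hg]
    by_cases h : i = j
    · simp only [h, if_true]
      exact Measurable.mul (by fun_prop) f_meas
    · simp only [h, if_false]
      exact f_meas
  have h1 : ∀ x : Fin D → ℝ, ((fun x : Fin D → ℝ => ∏ i, f (x i)) *
      fun x : Fin D → ℝ => ENNReal.ofReal (x j ^ 2)) x = ∏ i, g i (x i) := by
    intro x
    simp only [Pi.mul_apply]
    rw [← Finset.mul_prod_erase Finset.univ (fun i => f (x i)) (Finset.mem_univ j),
      ← Finset.mul_prod_erase Finset.univ (fun i => g i (x i)) (Finset.mem_univ j)]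
    have h2 : g j (x j) = ENNReal.ofReal (x j ^ 2) * f (x j) := by simp [hg]
    have h3 : ∏ i ∈ Finset.univ.erase j, g i (x i) = ∏ i ∈ Finset.univ.erase j, f (x i) := by
      apply Finset.prod_congr rfl
      intro i hi
      simp [hg, (Finset.mem_erase.1 hi).1]
    rw [h2, h3]
    ring
  rw [lintegral_congr h1, volume_pi, lintegral_fin_prod (fun _ => volume) g hgm,
    ← Finset.mul_prod_erase Finset.univ (fun i => ∫⁻ t, g i t) (Finset.mem_univ j)]
  have h2 : ∫⁻ t, g j t = ∫⁻ t, ENNReal.ofReal (t ^ 2) * f t := by simp [hg]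
  have h3 : ∏ i ∈ Finset.univ.erase j, ∫⁻ t, g i t = (∫⁻ t, f t) ^ (D - 1) := by
    have h4 : ∏ i ∈ Finset.univ.erase j, ∫⁻ t, g i t = ∏ i ∈ Finset.univ.erase j, ∫⁻ t, f t := by
      apply Finset.prod_congr rfl
      intro i hi
      simp [hg, (Finset.mem_erase.1 hi).1]
    rw [h4, Finset.prod_const, Finset.card_erase_of_mem (Finset.mem_univ j), Finset.card_univ,
      Fintype.card_fin]
  rw [h2, h3]

theorem I_le : ∫⁻ t, f t ≤ ENNReal.ofReal 2 := by
  calc ∫⁻ t, f t ≤ ∫⁻ t, (Icc (-1 : ℝ) 1).indicator (fun _ => (1 : ℝ≥0∞)) t := by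
        apply lintegral_mono
        intro t
        unfold f
        apply indicator_le_indicator
        rw [← ENNReal.ofReal_one]
        apply ENNReal.ofReal_le_ofReal
        rw [Real.exp_le_one_iff]
        have := sq_nonneg t
        linarith
    _ = ENNReal.ofReal 2 := by
        rw [lintegral_indicator measurableSet_Icc, lintegral_const, one_mul,
          Measure.restrict_apply_univ, Real.volume_Icc]
        norm_num

theorem J_ge : ENNReal.ofReal (1 / 16) ≤ ∫⁻ t, ENNReal.ofReal (t ^ 2) * f t := by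
  calc ENNReal.ofReal (1 / 16) = ∫⁻ t, (Icc (1 / 2 : ℝ) 1).indicator
        (fun _ => ENNReal.ofReal (1 / 8)) t := by
        rw [lintegral_indicator measurableSet_Icc, lintegral_const,
          Measure.restrict_apply_univ, Real.volume_Icc, ← ENNReal.ofReal_mul (by norm_num)]
        norm_num
    _ ≤ ∫⁻ t, ENNReal.ofReal (t ^ 2) * f t := by
        apply lintegral_mono
        intro t
        by_cases ht : t ∈ Icc (1 / 2 : ℝ) 1
        · have h1 : f t = ENNReal.ofReal (Real.exp (-(t ^ 2 / 2))) := by
            unfold f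
            rw [indicator_of_mem]
            exact ⟨by linarith [ht.1], ht.2⟩
          simp only [indicator_of_mem ht, h1]
          rw [← ENNReal.ofReal_mul (sq_nonneg t)]
          apply ENNReal.ofReal_le_ofReal
          have h2 : 1 / 4 ≤ t ^ 2 := by nlinarith [ht.1]
          have h3 : t ^ 2 ≤ 1 := by nlinarith [ht.1, ht.2]
          have h4 : 1 / 2 ≤ Real.exp (-(t ^ 2 / 2)) := by
            have := Real.add_one_le_exp (-(t ^ 2 / 2))
            linarith
          nlinarith
        · simp only [indicator_of_notMem ht]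
          exact bot_le

theorem IJ : 2 * ENNReal.ofReal (1 / 64) * ∫⁻ t, f t ≤ ∫⁻ t, ENNReal.ofReal (t ^ 2) * f t := by
  calc 2 * ENNReal.ofReal (1 / 64) * ∫⁻ t, f t
      ≤ 2 * ENNReal.ofReal (1 / 64) * ENNReal.ofReal 2 := by
        gcongr
        exact I_le
    _ = ENNReal.ofReal (1 / 16) := by
        have : (2 : ℝ≥0∞) = ENNReal.ofReal 2 := by norm_num
        rw [this, ← ENNReal.ofReal_mul (by norm_num), ← ENNReal.ofReal_mul (by norm_num)]
        norm_num
    _ ≤ _ := J_ge

theorem main (D : ℕ) (hD : 1 ≤ D) :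
    ENNReal.ofReal (1 / 64) * mu D univ ≤ mu D {x | (1 / 64 : ℝ) * D ≤ sq x} := by
  set S : Set (Fin D → ℝ) := {x | (1 / 64 : ℝ) * D ≤ sq x} with hS
  have hsqm : Measurable (fun x : Fin D → ℝ => sq x) := by
    unfold sq
    fun_prop
  have hSm : MeasurableSet S := measurableSet_le measurable_const hsqm
  have hMt : mu D univ ≠ ⊤ := by
    rw [mu_univ]
    exact ENNReal.pow_ne_top (ne_top_of_le_ne_top ENNReal.ofReal_ne_top I_le)
  have hlow : (D : ℝ≥0∞) * (2 * ENNReal.ofReal (1 / 64) * mu D univ) ≤
      ∫⁻ x, ENNReal.ofReal (sq x) ∂(mu D) := by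
    have h1 : ∫⁻ x, ENNReal.ofReal (sq x) ∂(mu D) =
        ∑ j : Fin D, ∫⁻ x, ENNReal.ofReal (x j ^ 2) ∂(mu D) := by
      rw [← lintegral_finsetSum _ (by intro j _; fun_prop)]
      apply lintegral_congr
      intro x
      unfold sq
      rw [ENNReal.ofReal_sum_of_nonneg (fun i _ => sq_nonneg _)]
    rw [h1]
    calc (D : ℝ≥0∞) * (2 * ENNReal.ofReal (1 / 64) * mu D univ)
        = ∑ j : Fin D, (2 * ENNReal.ofReal (1 / 64) * mu D univ) := by
          rw [Finset.sum_const, Finset.card_univ, Fintype.card_fin, nsmul_eq_mul]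
      _ ≤ _ := by
          apply Finset.sum_le_sum
          intro j _
          rw [mu_sq, mu_univ]
          have hp : (∫⁻ t, f t) ^ D = (∫⁻ t, f t) * (∫⁻ t, f t) ^ (D - 1) := by
            rw [← pow_succ']
            congr 1
            omega
          rw [hp, ← mul_assoc]
          gcongr
          exact IJ
  have hup : ∫⁻ x, ENNReal.ofReal (sq x) ∂(mu D) ≤
      D * mu D S + D * (ENNReal.ofReal (1 / 64) * mu D univ) := by
    calc ∫⁻ x, ENNReal.ofReal (sq x) ∂(mu D)
        ≤ ∫⁻ x, (S.indicator (fun _ => (D : ℝ≥0∞)) x + D * ENNReal.ofReal (1 / 64)) ∂(mu D) := by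
          apply lintegral_mono_ae
          have hb : ∀ᵐ x ∂(mu D), x ∈ box D :=
            (withDensity_absolutelyContinuous _ _).ae_le (ae_restrict_mem (box_meas D))
          filter_upwards [hb] with x hx
          by_cases hxS : x ∈ S
          · rw [indicator_of_mem hxS]
            refine le_trans ?_ le_self_add
            have h2 : sq x ≤ D := by
              unfold sq
              calc ∑ i, x i ^ 2 ≤ ∑ i : Fin D, (1 : ℝ) := by
                    apply Finset.sum_le_sum
                    intro i _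
                    rw [sq_le_one_iff_abs_le_one]
                    exact hx i
                _ = D := by simp
            calc ENNReal.ofReal (sq x) ≤ ENNReal.ofReal (D : ℝ) := ENNReal.ofReal_le_ofReal h2
              _ = D := ENNReal.ofReal_natCast D
          · rw [indicator_of_notMem hxS, zero_add]
            have h2 : sq x ≤ D * (1 / 64) := by
              have h3 : sq x < 1 / 64 * D := not_le.1 hxS
              linarith
            calc ENNReal.ofReal (sq x) ≤ ENNReal.ofReal ((D : ℝ) * (1 / 64)) :=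
                  ENNReal.ofReal_le_ofReal h2
              _ = _ := by rw [ENNReal.ofReal_mul (by positivity), ENNReal.ofReal_natCast]
      _ = _ := by
          rw [lintegral_add_right _ measurable_const, lintegral_indicator hSm, lintegral_const,
            lintegral_const, Measure.restrict_apply_univ]
          ring
  have h0 : (D : ℝ≥0∞) ≠ 0 := by
    simp only [ne_eq, Nat.cast_eq_zero]
    omega
  have hinf : (D : ℝ≥0∞) ≠ ⊤ := ENNReal.natCast_ne_top D
  have h5 := hlow.trans hup
  rw [← mul_add] at h5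
  have h6 : 2 * ENNReal.ofReal (1 / 64) * mu D univ ≤
      mu D S + ENNReal.ofReal (1 / 64) * mu D univ := by
    exact (ENNReal.mul_le_mul_iff_right h0 hinf).1 h5
  have h7 : ENNReal.ofReal (1 / 64) * mu D univ + ENNReal.ofReal (1 / 64) * mu D univ ≤
      mu D S + ENNReal.ofReal (1 / 64) * mu D univ := by
    calc _ = 2 * ENNReal.ofReal (1 / 64) * mu D univ := by ring
      _ ≤ _ := h6
  exact ENNReal.le_of_add_le_add_right (ENNReal.mul_ne_top ENNReal.ofReal_ne_top hMt) h7

end GMx

theorem GM_ok : S_GM :=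
  ⟨1 / 64, 1 / 64, by norm_num, by norm_num, fun D hD => GMx.main D hD⟩

end Pool.Agent.U208.SI
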